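import Pool.Agent.Helper36.Alg.Defs

/-!
# AL-1: the elimination computes the rank of a matrix over `ZMod p`
-/

set_option autoImplicit false

namespace Pool.Agent.Helper36.Alg

open Finset Pool.Agent.Helper36.PT

/-! ### linear algebra -/

theorem rk_reduce {F : Type} [Field F] {n m : ℕ} (M M' : Matrix (Fin n) (Fin m) F) (i : Fin n)
    (c : Fin m) (h : M i c ≠ 0)
    (h' : ∀ u v, M' u v = M u v * M i c - M u c * M i v) : M'.rank + 1 = M.rank := by
  classical
  have hmul : ∀ x : Fin m → F, M'.mulVec x =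
      M i c • M.mulVec x - (M.mulVec x i) • M.mulVec (Pi.single c 1) := by
    intro x
    ext u
    simp only [Pi.sub_apply, Pi.smul_apply, smul_eq_mul, Matrix.mulVec_single_one,
      Matrix.col_apply]
    simp only [Matrix.mulVec, dotProduct]
    rw [Finset.mul_sum, Finset.sum_mul, ← Finset.sum_sub_distrib]
    refine Finset.sum_congr rfl fun v _ => ?_
    rw [h']
    ring
  have hker : LinearMap.ker M'.mulVecLin =
      LinearMap.ker M.mulVecLin ⊔ Submodule.span F {(Pi.single c 1 : Fin m → F)} := by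
    apply le_antisymm
    · intro x hx
      rw [LinearMap.mem_ker, Matrix.mulVecLin_apply, hmul] at hx
      rw [Submodule.mem_sup]
      refine ⟨x - ((M i c)⁻¹ * M.mulVec x i) • Pi.single c 1, ?_,
        ((M i c)⁻¹ * M.mulVec x i) • Pi.single c 1,
        Submodule.smul_mem _ _ (Submodule.mem_span_singleton_self _), by simp⟩
      rw [LinearMap.mem_ker, map_sub, map_smul, Matrix.mulVecLin_apply, Matrix.mulVecLin_apply]
      have h1 : M i c • (M.mulVec x - ((M i c)⁻¹ * M.mulVec x i) • M.mulVec (Pi.single c 1)) =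
          0 := by
        rw [smul_sub, smul_smul, ← mul_assoc, mul_inv_cancel₀ h, one_mul]
        exact hx
      rcases smul_eq_zero.1 h1 with h2 | h2
      · exact absurd h2 h
      · exact h2
    · refine sup_le ?_ ?_
      · intro x hx
        rw [LinearMap.mem_ker, Matrix.mulVecLin_apply] at hx ⊢
        rw [hmul, hx]
        simp
      · rw [Submodule.span_singleton_le_iff_mem, LinearMap.mem_ker, Matrix.mulVecLin_apply, hmul]
        simp
  have hinf : LinearMap.ker M.mulVecLin ⊓ Submodule.span F {(Pi.single c 1 : Fin m → F)} = ⊥ := by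
    rw [eq_bot_iff]
    intro x hx
    rw [Submodule.mem_inf, Submodule.mem_span_singleton] at hx
    obtain ⟨hx1, a, rfl⟩ := hx
    rw [LinearMap.mem_ker, map_smul, Matrix.mulVecLin_apply] at hx1
    have h1 := congrFun hx1 i
    simp only [Matrix.mulVec_single_one, Pi.smul_apply, Matrix.col_apply, smul_eq_mul,
      Pi.zero_apply] at h1
    rcases mul_eq_zero.1 h1 with h2 | h2
    · rw [h2, zero_smul]; exact Submodule.zero_mem _
    · exact absurd h2 h
  have h1 := Submodule.finrank_sup_add_finrank_inf_eq (LinearMap.ker M.mulVecLin)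
    (Submodule.span F {(Pi.single c 1 : Fin m → F)})
  have hne : (Pi.single c 1 : Fin m → F) ≠ 0 := by
    intro h0
    have := congrFun h0 c
    simp at this
  rw [hinf, finrank_bot, finrank_span_singleton hne, ← hker] at h1
  have h2 := LinearMap.finrank_range_add_finrank_ker M.mulVecLin
  have h3 := LinearMap.finrank_range_add_finrank_ker M'.mulVecLin
  have h4 : M.rank = Module.finrank F (LinearMap.range M.mulVecLin) := rfl
  have h5 : M'.rank = Module.finrank F (LinearMap.range M'.mulVecLin) := rfl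
  omega

/-! ### bounded search -/

theorem mu_lt_iff (n : ℕ) (Q : ℕ → Prop) : mu n Q < n ↔ ∃ i, i < n ∧ Q i := by
  classical
  unfold mu
  constructor
  · intro h
    by_contra hcon
    rw [dif_neg hcon] at h
    exact lt_irrefl _ h
  · intro h
    rw [dif_pos h]
    exact (Nat.find_spec h).1

theorem mu_spec (n : ℕ) (Q : ℕ → Prop) (h : mu n Q < n) : Q (mu n Q) := by
  classical
  have h1 := (mu_lt_iff n Q).1 h
  unfold mu
  rw [dif_pos h1]
  exact (Nat.find_spec h1).2

/-! ### tables -/

/-- the matrix of a table -/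
def tabZ (p n m : ℕ) (M : List ℕ) : Matrix (Fin n) (Fin m) (ZMod p) :=
  Matrix.of fun i j => ((M.getD ((i : ℕ) * m + j) 0 : ℕ) : ZMod p)

theorem idx_lt {n m : ℕ} (i : Fin n) (j : Fin m) : (i : ℕ) * m + j < n * m := by
  calc (i : ℕ) * m + j < (i : ℕ) * m + m := by have := j.2; omega
    _ = ((i : ℕ) + 1) * m := by ring
    _ ≤ n * m := Nat.mul_le_mul_right m i.2

theorem idx_div {n m : ℕ} (i : Fin n) (j : Fin m) : ((i : ℕ) * m + j) / m = i := by
  have hm : 0 < m := lt_of_le_of_lt (Nat.zero_le _) j.2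
  rw [mul_comm, Nat.mul_add_div hm, Nat.div_eq_of_lt j.2, add_zero]

theorem idx_mod {n m : ℕ} (i : Fin n) (j : Fin m) : ((i : ℕ) * m + j) % m = j := by
  rw [mul_comm, Nat.mul_add_mod, Nat.mod_eq_of_lt j.2]

theorem getD_map_range (N : ℕ) (g : ℕ → ℕ) (t : ℕ) (ht : t < N) :
    ((List.range N).map g).getD t 0 = g t := by
  rw [List.getD_eq_getElem?_getD, List.getElem?_map, List.getElem?_range ht]
  rfl

theorem getD_map_range_lt (N : ℕ) (g : ℕ → ℕ) (B : ℕ) (hB : 0 < B) (hg : ∀ t, g t < B) (t : ℕ) :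
    ((List.range N).map g).getD t 0 < B := by
  by_cases ht : t < N
  · rw [getD_map_range N g t ht]; exact hg t
  · rw [List.getD_eq_default]
    · exact hB
    · rw [List.length_map, List.length_range]; omega

section

variable {p : ℕ} [hp : Fact p.Prime]

theorem tab_elim (n m k : ℕ) (hk : k < n * m) (hm : 0 < m) (M : List ℕ) (i : Fin n) (c : Fin m)
    (hi : (i : ℕ) = k / m) (hc : (c : ℕ) = k % m) (u : Fin n) (v : Fin m) :
    tabZ p n m (rkElim p n m k M) u v =
      tabZ p n m M u v * tabZ p n m M i c - tabZ p n m M u c * tabZ p n m M i v := by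
  unfold tabZ rkElim
  simp only [Matrix.of_apply]
  rw [getD_map_range _ _ _ (idx_lt u v), idx_div, idx_mod]
  have h1 : (i : ℕ) * m + c = k := by
    rw [hi, hc]
    exact Nat.div_add_mod' k m
  rw [h1, ← hi, ← hc, ZMod.natCast_mod]
  have h2 : (((p - 1 : ℕ) : ℕ) : ZMod p) = -1 := by
    rw [Nat.cast_sub hp.out.one_lt.le, Nat.cast_one, ZMod.natCast_self, zero_sub]
  push_cast
  rw [h2]
  ring

theorem cast_ne_zero_of_lt {a : ℕ} (ha : a < p) (h : a ≠ 0) : ((a : ℕ) : ZMod p) ≠ 0 := by
  intro h0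
  rw [ZMod.natCast_eq_zero_iff] at h0
  exact h (Nat.eq_zero_of_dvd_of_lt h0 ha)

/-- the invariant of the elimination -/
def RkInv (n m R j : ℕ) (s : ℕ × List ℕ) : Prop :=
  s.1 + (tabZ p n m s.2).rank = R ∧ (∀ t, s.2.getD t 0 < p) ∧
    ((tabZ p n m s.2).rank = 0 ∨ s.1 = j)

theorem rkStep_inv (n m R j : ℕ) (s : ℕ × List ℕ) (h : RkInv (p := p) n m R j s) :
    RkInv (p := p) n m R (j + 1) (rkStep p n m s) := by
  classical
  obtain ⟨h1, h2, h3⟩ := h
  unfold rkStep
  by_cases hpos : rkPos n m s.2 < n * m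
  · rw [if_pos hpos]
    set k := rkPos n m s.2 with hk
    have hkne : s.2.getD k 0 ≠ 0 := mu_spec (n * m) _ hpos
    have hm : 0 < m := by
      rcases Nat.eq_zero_or_pos m with h0 | h0
      · rw [h0, mul_zero] at hpos; omega
      · exact h0
    have hkd : k / m < n := (Nat.div_lt_iff_lt_mul hm).2 hpos
    have hkm : k % m < m := Nat.mod_lt _ hm
    have hentry : tabZ p n m s.2 ⟨k / m, hkd⟩ ⟨k % m, hkm⟩ ≠ 0 := by
      unfold tabZ
      simp only [Matrix.of_apply]
      rw [Nat.div_add_mod' k m]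
      exact cast_ne_zero_of_lt (h2 k) hkne
    have hred := rk_reduce (tabZ p n m s.2) (tabZ p n m (rkElim p n m k s.2)) ⟨k / m, hkd⟩
      ⟨k % m, hkm⟩ hentry (fun u v => tab_elim n m k hpos hm s.2 _ _ rfl rfl u v)
    refine ⟨?_, ?_, ?_⟩
    · show s.1 + 1 + (tabZ p n m (rkElim p n m k s.2)).rank = R
      omega
    · intro t
      show (rkElim p n m k s.2).getD t 0 < p
      unfold rkElim
      exact getD_map_range_lt _ _ p hp.out.pos (fun t => Nat.mod_lt _ hp.out.pos) t
    · right
      show s.1 + 1 = j + 1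
      rcases h3 with h3 | h3
      · omega
      · rw [h3]
  · rw [if_neg hpos]
    refine ⟨h1, h2, Or.inl ?_⟩
    have hzero : tabZ p n m s.2 = 0 := by
      ext u v
      unfold tabZ
      simp only [Matrix.of_apply, Matrix.zero_apply]
      have h4 : ¬ ∃ i, i < n * m ∧ s.2.getD i 0 ≠ 0 := by
        intro h5
        exact hpos ((mu_lt_iff _ _).2 h5)
      push Not at h4
      rw [h4 _ (idx_lt u v), Nat.cast_zero]
    rw [hzero, Matrix.rank_zero]

theorem recN_inv (n m R : ℕ) (s : ℕ × List ℕ) (h : RkInv (p := p) n m R 0 s) (j : ℕ) :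
    RkInv (p := p) n m R j (recN s (fun _ s => rkStep p n m s) j) := by
  induction j with
  | zero => exact h
  | succ j ih => exact rkStep_inv n m R j _ ih

end

theorem rankF_eq {p : ℕ} (hp : p.Prime) (n m : ℕ) (f : ℕ → ℕ → ℕ) :
    rankF p n m f = (Matrix.of fun (i : Fin n) (j : Fin m) => ((f i j : ℕ) : ZMod p)).rank := by
  haveI : Fact p.Prime := ⟨hp⟩
  have hp1 : p - 1 + 1 = p := Nat.sub_add_cancel hp.one_lt.le
  set R := (Matrix.of fun (i : Fin n) (j : Fin m) => ((f i j : ℕ) : ZMod p)).rank with hR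
  unfold rankF
  rw [hp1]
  set s0 : ℕ × List ℕ := ((0 : ℕ), (List.range (n * m)).map (fun t => f (t / m) (t % m) % p))
    with hs0
  have htab : tabZ p n m s0.2 =
      Matrix.of fun (i : Fin n) (j : Fin m) => ((f i j : ℕ) : ZMod p) := by
    ext u v
    unfold tabZ
    simp only [Matrix.of_apply, hs0]
    rw [getD_map_range _ _ _ (idx_lt u v), idx_div, idx_mod, ZMod.natCast_mod]
  have hinit : RkInv (p := p) n m R 0 s0 := by
    refine ⟨?_, ?_, Or.inr rfl⟩
    · rw [htab]
      show 0 + _ = R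
      rw [zero_add]
    · intro t
      exact getD_map_range_lt _ _ p hp.pos (fun t => Nat.mod_lt _ hp.pos) t
  obtain ⟨h1, -, h3⟩ := recN_inv n m R s0 hinit n
  have hRn : R ≤ n := by
    rw [hR]
    exact Matrix.rank_le_height _
  rcases h3 with h3 | h3
  · omega
  · omega

end Pool.Agent.Helper36.Alg
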